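import Mathlib

/-!
# MP_b612d4: the doubly randomised ALOHA protocol `A_3(C, h, 1 - ε)`

The conjecture asks for Harris ergodicity of `(N_n, S_n)` for every `C > 0`, `h ∈ H`, `ε ∈ E_h` and
every input rate `λ < 1/e`.  We show that it fails for *every* `C > 0`, *every* arrival law and
*every* `ε`, as soon as `x ↦ x - h x` is strictly increasing on `[1, ∞)`, as it is for
`h x = √x - 1`: the second coordinate then never leaves a countable set determined by its starting
value, and two starting values with disjoint such sets cannot have the same limit in total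
variation.
-/

namespace Pool.Agent.Results.MP_b612d4_pr.NotHarrisErgodic

open MeasureTheory Filter Topology

/-! ## The classes `H` and `E_h` -/

/-- The class `H` of functions on `[1, ∞)` (functions on `ℝ` of which only the values on `[1, ∞)`
matter). -/
structure IsH (h : ℝ → ℝ) : Prop where
  nonneg : ∀ x, 1 ≤ x → 0 ≤ h x
  one : h 1 = 0
  mono : MonotoneOn h (Set.Ici 1)
  tendsto : Tendsto h atTop atTop
  mono_sub : MonotoneOn (fun x => x - h x) (Set.Ici 1)
  tendsto_sub : Tendsto (fun x => x - h x) atTop atTop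
  ratio : Tendsto (fun x => h x / x) atTop (𝓝 0)

/-- The class `E_h`: functions `[1, ∞) → (0, 1/2]` tending to `0` with `h ε² → ∞`. -/
structure IsE (h ε : ℝ → ℝ) : Prop where
  pos : ∀ x, 1 ≤ x → 0 < ε x
  le_half : ∀ x, 1 ≤ x → ε x ≤ 1 / 2
  tendsto : Tendsto ε atTop (𝓝 0)
  big : Tendsto (fun x => h x * ε x ^ 2) atTop atTop

/-! ## The protocol as a Markov chain on pairs `(N, S)` -/

/-- Clipping a number to `[0, 1]` (this changes nothing for the probabilities used below). -/
noncomputable def clip (p : ℝ) : ℝ := max 0 (min p 1)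

theorem clip_nonneg (p : ℝ) : 0 ≤ clip p := le_max_left _ _

theorem clip_le_one (p : ℝ) : clip p ≤ 1 := max_le zero_le_one (min_le_right _ _)

/-- A coin that shows `true` with probability `clip p`. -/
noncomputable def coin (p : ℝ) : PMF Bool :=
  PMF.ofFintype (fun b => if b then ENNReal.ofReal (clip p) else ENNReal.ofReal (1 - clip p)) (by
    rw [Fintype.sum_bool]
    simp only [if_true, Bool.false_eq_true, if_false]
    rw [← ENNReal.ofReal_add (clip_nonneg p) (by linarith [clip_le_one p])]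
    simp)

/-- The number of messages sent when each of `N` present messages is sent independently with
probability `p`. -/
noncomputable def senders (p : ℝ) : ℕ → PMF ℕ
  | 0 => PMF.pure 0
  | N + 1 => (coin p).bind fun b => (senders p N).bind fun k => PMF.pure (if b then k + 1 else k)

/-- The sending probability: `(1 - ε S) / S` if `I = 0` (`false`), and `1 / S` if `I = 1`
(`true`). -/
noncomputable def sendProb (ε : ℝ → ℝ) (S : ℝ) (I : Bool) : ℝ :=
  if I then 1 / S else (1 - ε S) / S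

/-- The update of `S`, given the success indicator `J` and the coin `I`. -/
noncomputable def nextS (C : ℝ) (h : ℝ → ℝ) (S : ℝ) (I J : Bool) : ℝ :=
  if J then (if I then max (S - h S) 1 else S + h S) else S + C

/-- One step of the chain with arrival law `ν`: toss the fair coin `I`, let `B` messages be sent,
put `J = 1` iff `B = 1`, draw the number `ξ` of arrivals and move to
`(N - J + ξ, S')`. -/
noncomputable def step (C : ℝ) (h ε : ℝ → ℝ) (ν : PMF ℕ) (x : ℕ × ℝ) : PMF (ℕ × ℝ) :=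
  (coin (1 / 2)).bind fun I =>
    (senders (sendProb ε x.2 I) x.1).bind fun B =>
      ν.bind fun ξ =>
        PMF.pure (x.1 - (if B = 1 then 1 else 0) + ξ, nextS C h x.2 I (decide (B = 1)))

/-- The law of `(N_{n+1}, S_{n+1})` for the chain started at `(N_1, S_1) = x`. -/
noncomputable def law (C : ℝ) (h ε : ℝ → ℝ) (ν : PMF ℕ) (x : ℕ × ℝ) : ℕ → PMF (ℕ × ℝ)
  | 0 => PMF.pure x
  | n + 1 => (law C h ε ν x n).bind (step C h ε ν)

/-- The mean of the arrival law is the (finite) number `r`. -/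
def HasRate (ν : PMF ℕ) (r : ℝ) : Prop := HasSum (fun k : ℕ => (k : ℝ) * (ν k).toReal) r

/-- Stability (Harris ergodicity): there is a probability measure `μ` to which the law of
`(N_n, S_n)` converges uniformly over Borel sets, for every initial value `(N₁, S₁)`,
`N₁ ≥ 0`, `S₁ ≥ 1`. -/
def Stable (C : ℝ) (h ε : ℝ → ℝ) (ν : PMF ℕ) : Prop :=
  ∃ μ : Measure (ℕ × ℝ), IsProbabilityMeasure μ ∧
    ∀ (N₁ : ℕ) (S₁ : ℝ), 1 ≤ S₁ →
      ∀ δ : ℝ, 0 < δ → ∃ n₀ : ℕ, ∀ n, n₀ ≤ n → ∀ A : Set (ℕ × ℝ), MeasurableSet A →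
        |((law C h ε ν (N₁, S₁) n).toMeasure A).toReal - (μ A).toReal| ≤ δ

/-! ## Orbits of the second coordinate -/

/-- The three maps moving `S`, indexed by `Fin 3`. -/
noncomputable def move (C : ℝ) (h : ℝ → ℝ) (i : Fin 3) (x : ℝ) : ℝ :=
  if i = 0 then x + C else if i = 1 then x + h x else max (x - h x) 1

/-- The action of words. -/
noncomputable def act (C : ℝ) (h : ℝ → ℝ) : List (Fin 3) → ℝ → ℝ
  | [], x => x
  | i :: w, x => move C h i (act C h w x)

/-- The (countable) set of values reachable from `x`. -/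
def orbit (C : ℝ) (h : ℝ → ℝ) (x : ℝ) : Set ℝ := Set.range fun w => act C h w x

theorem orbit_countable (C : ℝ) (h : ℝ → ℝ) (x : ℝ) : (orbit C h x).Countable :=
  Set.countable_range _

theorem orbit_move {C : ℝ} {h : ℝ → ℝ} {x y : ℝ} (hy : y ∈ orbit C h x) (i : Fin 3) :
    move C h i y ∈ orbit C h x := by
  obtain ⟨w, rfl⟩ := hy
  exact ⟨i :: w, rfl⟩

theorem nextS_mem {C : ℝ} {h : ℝ → ℝ} {x y : ℝ} (hy : y ∈ orbit C h x) (I J : Bool) :
    nextS C h y I J ∈ orbit C h x := by
  cases J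
  · have := orbit_move hy 0
    simpa [nextS, move] using this
  · cases I
    · have := orbit_move hy 1
      simpa [nextS, move] using this
    · have := orbit_move hy 2
      simpa [nextS, move] using this

theorem support_law (C : ℝ) (h ε : ℝ → ℝ) (ν : PMF ℕ) (x : ℕ × ℝ) (n : ℕ) :
    (law C h ε ν x n).support ⊆ {s | s.2 ∈ orbit C h x.2} := by
  induction n with
  | zero =>
    intro s hs
    rw [law, PMF.support_pure, Set.mem_singleton_iff] at hs
    subst hs
    exact ⟨[], rfl⟩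
  | succ n ih =>
    intro s hs
    rw [law, PMF.mem_support_bind_iff] at hs
    obtain ⟨t, ht, hs⟩ := hs
    have h2 := ih ht
    rw [step, PMF.mem_support_bind_iff] at hs
    obtain ⟨I, -, hs⟩ := hs
    rw [PMF.mem_support_bind_iff] at hs
    obtain ⟨B, -, hs⟩ := hs
    rw [PMF.mem_support_bind_iff] at hs
    obtain ⟨ξ, -, hs⟩ := hs
    rw [PMF.support_pure, Set.mem_singleton_iff] at hs
    subst hs
    exact nextS_mem h2 _ _

/-- The Borel set of states whose second coordinate is reachable from `x`. -/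
def reach (C : ℝ) (h : ℝ → ℝ) (x : ℝ) : Set (ℕ × ℝ) := {s | s.2 ∈ orbit C h x}

theorem measurableSet_reach (C : ℝ) (h : ℝ → ℝ) (x : ℝ) : MeasurableSet (reach C h x) :=
  measurable_snd (orbit_countable C h x).measurableSet

theorem measure_reach {C : ℝ} {h ε : ℝ → ℝ} {ν : PMF ℕ} {μ : Measure (ℕ × ℝ)}
    [IsProbabilityMeasure μ]
    (hμ : ∀ (N₁ : ℕ) (S₁ : ℝ), 1 ≤ S₁ →
      ∀ δ : ℝ, 0 < δ → ∃ n₀ : ℕ, ∀ n, n₀ ≤ n → ∀ A : Set (ℕ × ℝ), MeasurableSet A →
        |((law C h ε ν (N₁, S₁) n).toMeasure A).toReal - (μ A).toReal| ≤ δ)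
    {x : ℝ} (hx : 1 ≤ x) : μ (reach C h x) = 1 := by
  have key : (μ (reach C h x)).toReal = 1 := by
    refine le_antisymm ?_ ?_
    · have : μ (reach C h x) ≤ 1 := prob_le_one
      exact ENNReal.toReal_le_of_le_ofReal zero_le_one (by simpa using this)
    · refine le_of_forall_pos_le_add fun δ hδ => ?_
      obtain ⟨n₀, hn₀⟩ := hμ 0 x hx δ hδ
      have h1 := hn₀ n₀ le_rfl _ (measurableSet_reach C h x)
      have h2 : (law C h ε ν (0, x) n₀).toMeasure (reach C h x) = 1 :=
        (PMF.toMeasure_apply_eq_one_iff _ (measurableSet_reach C h x)).2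
          (support_law C h ε ν (0, x) n₀)
      rw [h2, ENNReal.toReal_one] at h1
      have := (abs_le.1 h1).2
      linarith
  have hne : μ (reach C h x) ≠ ⊤ := measure_ne_top _ _
  rw [← ENNReal.ofReal_toReal hne, key, ENNReal.ofReal_one]

/-! ## Disjoint orbits -/

section orbits

variable {C : ℝ} {h : ℝ → ℝ}

theorem one_le_move (hC : 0 < C) (hh : IsH h) {x : ℝ} (hx : 1 ≤ x) (i : Fin 3) :
    1 ≤ move C h i x := by
  unfold move
  split_ifs
  · linarith
  · linarith [hh.nonneg x hx]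
  · exact le_max_right _ _

theorem one_le_act (hC : 0 < C) (hh : IsH h) {x : ℝ} (hx : 1 ≤ x) (w : List (Fin 3)) :
    1 ≤ act C h w x := by
  induction w with
  | nil => exact hx
  | cons i w ih => exact one_le_move hC hh ih i

theorem max_eq (hh : IsH h) {x : ℝ} (hx : 1 ≤ x) : max (x - h x) 1 = x - h x := by
  refine max_eq_left ?_
  have := hh.mono_sub (Set.mem_Ici.2 le_rfl) (Set.mem_Ici.2 hx) hx
  simpa [hh.one] using this

theorem move_injOn (hh : IsH h) (hs : StrictMonoOn (fun x => x - h x) (Set.Ici 1)) (i : Fin 3) :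
    Set.InjOn (move C h i) (Set.Ici 1) := by
  intro x hx y hy hxy
  unfold move at hxy
  split_ifs at hxy
  · linarith
  · rcases lt_trichotomy x y with hlt | heq | hlt
    · have := hh.mono hx hy hlt.le
      linarith
    · exact heq
    · have := hh.mono hy hx hlt.le
      linarith
  · rw [max_eq hh hx, max_eq hh hy] at hxy
    exact hs.injOn hx hy hxy

theorem act_injOn (hC : 0 < C) (hh : IsH h)
    (hs : StrictMonoOn (fun x => x - h x) (Set.Ici 1)) (w : List (Fin 3)) :
    Set.InjOn (act C h w) (Set.Ici 1) := by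
  induction w with
  | nil => intro x _ y _ hxy; exact hxy
  | cons i w ih =>
    intro x hx y hy hxy
    exact ih hx hy (move_injOn hh hs i (one_le_act hC hh hx w) (one_le_act hC hh hy w) hxy)

/-- For every starting value there is another one with a disjoint orbit. -/
theorem exists_disjoint (hC : 0 < C) (hh : IsH h)
    (hs : StrictMonoOn (fun x => x - h x) (Set.Ici 1)) (x : ℝ) :
    ∃ y, 1 ≤ y ∧ Disjoint (orbit C h x) (orbit C h y) := by
  by_contra hcon
  push Not at hcon
  have hcount : (⋃ w : List (Fin 3), ⋃ z ∈ orbit C h x,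
      {y : ℝ | y ∈ Set.Ici (1 : ℝ) ∧ act C h w y = z}).Countable := by
    refine Set.countable_iUnion fun w => (orbit_countable C h x).biUnion fun z _ => ?_
    refine Set.Subsingleton.countable ?_
    rintro a ⟨ha, ha'⟩ b ⟨hb, hb'⟩
    exact act_injOn hC hh hs w ha hb (ha'.trans hb'.symm)
  have hsub : Set.Ici (1 : ℝ) ⊆ ⋃ w : List (Fin 3), ⋃ z ∈ orbit C h x,
      {y : ℝ | y ∈ Set.Ici (1 : ℝ) ∧ act C h w y = z} := by
    intro y hy
    obtain ⟨z, hzx, w, hw⟩ := Set.not_disjoint_iff.1 (hcon y hy)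
    simp only [Set.mem_iUnion]
    exact ⟨w, z, hzx, hy, hw⟩
  have h1 : (Set.Ici (1 : ℝ)).Countable := hcount.mono hsub
  have h2 := Cardinal.le_aleph0_iff_set_countable.2 h1
  rw [Cardinal.mk_Ici_real] at h2
  exact absurd h2 (not_le.2 Cardinal.aleph0_lt_continuum)

end orbits

/-- **Main theorem.** If `x - h x` is strictly increasing on `[1, ∞)`, the chain is not Harris
ergodic, whatever `C > 0`, `ε` and the arrival law are. -/
theorem not_stable {C : ℝ} (hC : 0 < C) {h : ℝ → ℝ} (hh : IsH h)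
    (hs : StrictMonoOn (fun x => x - h x) (Set.Ici 1)) (ε : ℝ → ℝ) (ν : PMF ℕ) :
    ¬ Stable C h ε ν := by
  rintro ⟨μ, hμ1, hμ⟩
  obtain ⟨y, hy, hd⟩ := exists_disjoint hC hh hs 1
  have e1 := measure_reach hμ (le_refl (1 : ℝ))
  have e2 := measure_reach hμ hy
  have hdisj : Disjoint (reach C h 1) (reach C h y) := by
    rw [Set.disjoint_left]
    intro s hs1 hs2
    exact (Set.disjoint_left.1 hd) hs1 hs2
  have hun := measure_union hdisj (measurableSet_reach C h y) (μ := μ)
  have hle : μ (reach C h 1 ∪ reach C h y) ≤ 1 := prob_le_one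
  rw [hun, e1, e2] at hle
  norm_num at hle

/-! ## An example -/

/-- `h x = √x - 1`. -/
noncomputable def h₀ (x : ℝ) : ℝ := x ^ (1 / 2 : ℝ) - 1

/-- `ε x = x ^ (-1/8) / 2`. -/
noncomputable def ε₀ (x : ℝ) : ℝ := x ^ (-(1 / 8) : ℝ) / 2

theorem h₀_strict : StrictMonoOn (fun x => x - h₀ x) (Set.Ici 1) := by
  intro x hx y hy hxy
  have hx' : (1 : ℝ) ≤ x := hx
  have hy' : (1 : ℝ) ≤ y := hy
  have ax : (1 : ℝ) ≤ √x := Real.one_le_sqrt.2 hx'
  have ay : √x < √y := Real.sqrt_lt_sqrt (by linarith) hxy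
  have sx : √x * √x = x := Real.mul_self_sqrt (by linarith)
  have sy : √y * √y = y := Real.mul_self_sqrt (by linarith)
  simp only [h₀, ← Real.sqrt_eq_rpow]
  nlinarith

theorem isH_h₀ : IsH h₀ where
  nonneg x hx := by
    have := Real.one_le_rpow hx (by norm_num : (0 : ℝ) ≤ 1 / 2)
    unfold h₀
    linarith
  one := by simp [h₀]
  mono := by
    intro x hx y hy hxy
    have hx' : (1 : ℝ) ≤ x := hx
    have := Real.rpow_le_rpow (by linarith) hxy (by norm_num : (0 : ℝ) ≤ 1 / 2)
    unfold h₀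
    linarith
  tendsto := by
    have := tendsto_rpow_atTop (by norm_num : (0 : ℝ) < 1 / 2)
    exact tendsto_atTop_add_const_right _ (-1) this
  mono_sub := h₀_strict.monotoneOn
  tendsto_sub := by
    refine tendsto_atTop_mono' (f₁ := fun x => x ^ (1 / 2 : ℝ)) atTop ?_
      (tendsto_rpow_atTop (by norm_num))
    filter_upwards [eventually_ge_atTop (4 : ℝ)] with x hx
    have s4 : (2 : ℝ) ≤ √x := Real.le_sqrt_of_sq_le (by norm_num; exact hx)
    have sx : √x * √x = x := Real.mul_self_sqrt (by linarith)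
    simp only [h₀, ← Real.sqrt_eq_rpow]
    nlinarith
  ratio := by
    have h1 : Tendsto (fun x : ℝ => x ^ (-(1 / 2) : ℝ) - x ^ (-1 : ℝ)) atTop (𝓝 (0 - 0)) :=
      (tendsto_rpow_neg_atTop (by norm_num : (0 : ℝ) < 1 / 2)).sub
        (tendsto_rpow_neg_atTop (by norm_num : (0 : ℝ) < 1))
    rw [sub_zero] at h1
    refine h1.congr' ?_
    filter_upwards [eventually_gt_atTop (0 : ℝ)] with x hx
    rw [h₀, sub_div, Real.rpow_neg_one, one_div x]
    congr 1
    rw [eq_div_iff hx.ne']
    nth_rewrite 2 [← Real.rpow_one x]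
    rw [← Real.rpow_add hx]
    norm_num

theorem isE_ε₀ : IsE h₀ ε₀ where
  pos x hx := by
    have := Real.rpow_pos_of_pos (by linarith : (0 : ℝ) < x) (-(1 / 8) : ℝ)
    unfold ε₀
    linarith
  le_half x hx := by
    have := Real.rpow_le_one_of_one_le_of_nonpos hx (by norm_num : (-(1 / 8) : ℝ) ≤ 0)
    unfold ε₀
    linarith
  tendsto := by
    have := (tendsto_rpow_neg_atTop (by norm_num : (0 : ℝ) < 1 / 8)).div_const 2
    rw [zero_div] at this
    exact this
  big := by
    have h1 : Tendsto (fun x : ℝ => (x ^ (1 / 4 : ℝ) - x ^ (-(1 / 4) : ℝ)) / 4) atTop atTop := by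
      refine Tendsto.atTop_div_const (by norm_num) ?_
      have h2 := (tendsto_rpow_neg_atTop (by norm_num : (0 : ℝ) < 1 / 4)).neg
      have h3 := tendsto_rpow_atTop (by norm_num : (0 : ℝ) < 1 / 4)
      simpa [sub_eq_add_neg] using h3.atTop_add h2
    refine h1.congr' ?_
    filter_upwards [eventually_gt_atTop (0 : ℝ)] with x hx
    have e1 : (x ^ (-(1 / 8) : ℝ)) ^ 2 = x ^ (-(1 / 4) : ℝ) := by
      rw [← Real.rpow_natCast, ← Real.rpow_mul hx.le]
      norm_num
    have e2 : x ^ (1 / 2 : ℝ) * x ^ (-(1 / 4) : ℝ) = x ^ (1 / 4 : ℝ) := by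
      rw [← Real.rpow_add hx]
      norm_num
    rw [h₀, ε₀, div_pow, e1]
    linear_combination (-1 / 4 : ℝ) * e2

/-- For every `r ∈ [0, 1]` there is an arrival law with mean `r`. -/
theorem exists_rate {r : ℝ} (h0 : 0 ≤ r) (h1 : r ≤ 1) : ∃ ν : PMF ℕ, HasRate ν r := by
  let f : ℕ → ENNReal := fun k =>
    if k = 1 then ENNReal.ofReal r else if k = 0 then ENNReal.ofReal (1 - r) else 0
  have hsum : ∑ k ∈ ({0, 1} : Finset ℕ), f k = 1 := by
    rw [Finset.sum_pair (by norm_num)]
    have f0 : f 0 = ENNReal.ofReal (1 - r) := by simp [f]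
    have f1 : f 1 = ENNReal.ofReal r := by simp [f]
    rw [f0, f1, ← ENNReal.ofReal_add (by linarith) h0]
    simp
  refine ⟨PMF.ofFinset f {0, 1} hsum ?_, ?_⟩
  · intro a ha
    simp only [Finset.mem_insert, Finset.mem_singleton, not_or] at ha
    simp [f, ha.1, ha.2]
  · unfold HasRate
    have : HasSum (fun k : ℕ => (k : ℝ) * (f k).toReal) ((1 : ℕ) * (f 1).toReal) := by
      refine hasSum_single 1 fun k hk => ?_
      rcases Nat.eq_zero_or_pos k with rfl | hk0
      · simp
      · simp [f, hk, hk0.ne']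
    simpa [f, ENNReal.toReal_ofReal h0] using this

/-- **Result.**  (1) For every `C > 0` and every `h ∈ H` with `x ↦ x - h x` strictly increasing on
`[1, ∞)`, the protocol `A_3(C, h, 1 - ε)` is not stable, for any `ε` and any arrival law.
(2) There are `h ∈ H` and `ε ∈ E_h` such that for all `C > 0` and all arrival laws the protocol is
not stable.  (3) So the answer to Q1 is negative, and (4) for every `C > 0` and every single rate
`r ∈ (0, 1/e)`. -/
theorem result :
    (∀ C : ℝ, 0 < C → ∀ h : ℝ → ℝ, IsH h → StrictMonoOn (fun x => x - h x) (Set.Ici 1) →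
      ∀ (ε : ℝ → ℝ) (ν : PMF ℕ), ¬ Stable C h ε ν) ∧
    (∃ h ε : ℝ → ℝ, IsH h ∧ IsE h ε ∧ ∀ C : ℝ, 0 < C → ∀ ν : PMF ℕ, ¬ Stable C h ε ν) ∧
    (¬ ∀ C : ℝ, 0 < C → ∀ h : ℝ → ℝ, IsH h → ∀ ε : ℝ → ℝ, IsE h ε →
      ∀ r : ℝ, 0 < r → r < Real.exp (-1) → ∀ ν : PMF ℕ, HasRate ν r → Stable C h ε ν) ∧
    (∀ C : ℝ, 0 < C → ∀ r : ℝ, 0 < r → r < Real.exp (-1) →
      ∃ h ε : ℝ → ℝ, IsH h ∧ IsE h ε ∧ (∃ ν : PMF ℕ, HasRate ν r) ∧
        ∀ ν : PMF ℕ, HasRate ν r → ¬ Stable C h ε ν) := by
  have hexp : Real.exp (-1) ≤ 1 := by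
    rw [← Real.exp_zero]
    exact Real.exp_le_exp.2 (by norm_num)
  refine ⟨fun C hC h hh hs ε ν => not_stable hC hh hs ε ν,
    ⟨h₀, ε₀, isH_h₀, isE_ε₀, fun C hC ν => not_stable hC isH_h₀ h₀_strict ε₀ ν⟩, ?_, ?_⟩
  · intro hcon
    have hr : (0 : ℝ) < Real.exp (-1) / 2 := by positivity
    have hr2 : Real.exp (-1) / 2 < Real.exp (-1) := by linarith
    obtain ⟨ν, hν⟩ := exists_rate hr.le (by linarith)
    exact not_stable one_pos isH_h₀ h₀_strict ε₀ ν
      (hcon 1 one_pos h₀ isH_h₀ ε₀ isE_ε₀ _ hr hr2 ν hν)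
  · intro C hC r hr hr2
    exact ⟨h₀, ε₀, isH_h₀, isE_ε₀, exists_rate hr.le (by linarith),
      fun ν _ => not_stable hC isH_h₀ h₀_strict ε₀ ν⟩

end Pool.Agent.Results.MP_b612d4_pr.NotHarrisErgodic
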